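import Pool.Agent.helper58.FI.SpecC

set_option autoImplicit false

namespace Pool.Agent.FI

open Pool.Agent.helper58.DC Pool.Agent.DI Pool.Agent.GR Pool.Agent.OB Pool.Agent.DR

section FFSaux

variable {G : Type} [Group G]

theorem FFS_cc (a b : G) (hab : a * b = 1) (P : Subgroup G) : cjS a (cjS b P) = P := by
  ext x
  rw [mem_cjS, mem_cjS]
  have hb : b = a⁻¹ := eq_inv_of_mul_eq_one_right hab
  have h : b⁻¹ * (a⁻¹ * x * a) * b = x := by
    rw [hb]
    group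
  rw [h]

theorem FFS_fwd (p : ℕ) (D : Subgroup G) (g : G) (C : Finset (Subgroup G)) (h : NCh p ⊤ ⊥ C)
    (hD : ∀ Q ∈ C, cjS g Q ≤ D) : PCh p D ⊥ (chainMap (MulAut.conj g) C) := by
  classical
  refine ⟨?_, ?_, fun _ _ => bot_le, ?_, ?_⟩
  · intro A hA B hB _
    have hA' := Finset.mem_coe.1 hA
    have hB' := Finset.mem_coe.1 hB
    unfold chainMap at hA' hB'
    obtain ⟨Q, hQ, rfl⟩ := Finset.mem_image.1 hA'
    obtain ⟨R, hR, rfl⟩ := Finset.mem_image.1 hB'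
    rcases h.ch.chain.total (Finset.mem_coe.2 hQ) (Finset.mem_coe.2 hR) with h1 | h1
    · exact Or.inl (Subgroup.map_mono h1)
    · exact Or.inr (Subgroup.map_mono h1)
  · unfold chainMap
    exact Finset.mem_image.2 ⟨⊥, h.ch.mem, Subgroup.map_bot _⟩
  · intro Q hQ
    unfold chainMap at hQ
    obtain ⟨Q', hQ', rfl⟩ := Finset.mem_image.1 hQ
    exact hD Q' hQ'
  · intro Q hQ
    unfold chainMap at hQ
    obtain ⟨Q', hQ', rfl⟩ := Finset.mem_image.1 hQ
    exact (h.ch.pg Q' hQ').map _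

theorem FFS_bwd (p : ℕ) (D : Subgroup G) (hcom : ∀ c ∈ D, ∀ d ∈ D, c * d = d * c) (a g : G) (hga : g * a = 1)
    (C : Finset (Subgroup G)) (h : PCh p D ⊥ C) :
    NCh p ⊤ ⊥ (chainMap (MulAut.conj a) C) ∧ ∀ Q ∈ chainMap (MulAut.conj a) C, cjS g Q ≤ D := by
  classical
  refine ⟨⟨⟨?_, ?_, fun _ _ => bot_le, fun _ _ => le_top, ?_⟩, ?_⟩, ?_⟩
  · intro A hA B hB _
    have hA' := Finset.mem_coe.1 hA
    have hB' := Finset.mem_coe.1 hB
    unfold chainMap at hA' hB'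
    obtain ⟨Q, hQ, rfl⟩ := Finset.mem_image.1 hA'
    obtain ⟨R, hR, rfl⟩ := Finset.mem_image.1 hB'
    rcases h.chain.total (Finset.mem_coe.2 hQ) (Finset.mem_coe.2 hR) with h1 | h1
    · exact Or.inl (Subgroup.map_mono h1)
    · exact Or.inr (Subgroup.map_mono h1)
  · unfold chainMap
    exact Finset.mem_image.2 ⟨⊥, h.mem, Subgroup.map_bot _⟩
  · intro Q hQ
    unfold chainMap at hQ
    obtain ⟨Q', hQ', rfl⟩ := Finset.mem_image.1 hQ
    exact (h.pg Q' hQ').map _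
  · intro Q hQ R hR _ r hr
    unfold chainMap at hQ hR
    obtain ⟨Q', hQ', rfl⟩ := Finset.mem_image.1 hQ
    obtain ⟨R', hR', rfl⟩ := Finset.mem_image.1 hR
    have hr1 : a⁻¹ * r * a ∈ R' := mem_cjS.1 hr
    have hc : ∀ q ∈ cjS a Q', r * q = q * r := by
      intro q hq
      have hq1 : a⁻¹ * q * a ∈ Q' := mem_cjS.1 hq
      have h1 := hcom _ (h.le R' hR' hr1) _ (h.le Q' hQ' hq1)
      have h2 : r * q = a * ((a⁻¹ * r * a) * (a⁻¹ * q * a)) * a⁻¹ := by group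
      have h3 : q * r = a * ((a⁻¹ * q * a) * (a⁻¹ * r * a)) * a⁻¹ := by group
      rw [h2, h3, h1]
    refine Subgroup.mem_normalizer_iff.2 fun y => ⟨fun hy => ?_, fun hy => ?_⟩
    · have h1 := hc y hy
      have h2 : r * y * r⁻¹ = y := by
        rw [h1]
        group
      rw [h2]
      exact hy
    · have h1 := hc _ hy
      have h2 : y = r * y * r⁻¹ := by
        have h3 : r * y = r * y * r⁻¹ * r := by group
        have h4 : r * (r * y * r⁻¹) = r * y := h1.trans h3.symm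
        exact (mul_left_cancel h4).symm
      rw [h2]
      exact hy
  · intro Q hQ
    unfold chainMap at hQ
    obtain ⟨Q', hQ', rfl⟩ := Finset.mem_image.1 hQ
    have h1 : cjS g (cjS a Q') = Q' := FFS_cc g a hga Q'
    exact le_of_eq_of_le h1 (h.le Q' hQ')

theorem FFS_map_bot (α : MulAut G) : chainMap α ({⊥} : Finset (Subgroup G)) = {⊥} := by
  classical
  unfold chainMap
  rw [Finset.image_singleton, Subgroup.map_bot]

theorem FFS_inv (hNM : NM_stmt) [Finite G] (a b : G) (hab : a * b = 1) (C : Finset (Subgroup G)) :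
    chainMap (MulAut.conj a) (chainMap (MulAut.conj b) C) = C := by
  have h1 := (hNM G (MulAut.conj a) C).2.2.2.2.1 (MulAut.conj b)
  rw [← h1, ← map_mul, hab, map_one]
  exact (hNM G 1 C).2.2.2.2.2.1

theorem FFS_ne (hNM : NM_stmt) [Finite G] (a : G) (C : Finset (Subgroup G)) (h : C ≠ {⊥}) :
    chainMap (MulAut.conj a) C ≠ {⊥} := by
  intro h1
  apply h
  rw [← FFS_inv hNM a⁻¹ a (inv_mul_cancel a) C, h1]
  exact FFS_map_bot _

theorem FFS_finsum {α M : Type} [Fintype α] [AddCommMonoid M] (P : α → Prop) [DecidablePred P] (h : α → M) :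
    ∑ᶠ x ∈ {x | P x}, h x = ∑ x, if P x then h x else 0 := by
  rw [finsum_mem_def, finsum_eq_sum_of_fintype]
  refine Finset.sum_congr rfl fun x _ => ?_
  by_cases hx : P x
  · rw [Set.indicator_of_mem (show x ∈ {x | P x} from hx), if_pos hx]
  · rw [Set.indicator_of_notMem (show x ∉ {x | P x} from hx), if_neg hx]

end FFSaux

theorem FFS (hFNC : FNC_stmt) (hFTG : FTG_stmt) (hNM : NM_stmt) : FFS_stmt := by
  classical
  intro p M hS G _ _ D x θ χ hL
  have _ : Fact p.Prime := ⟨hS.pr⟩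
  let _ : Fintype G := Fintype.ofFinite G
  let _ : Fintype (Finset (Subgroup G)) := Fintype.ofFinite _
  have hD := hL.lo.rt.dfa.pgrp
  have hcom := hL.lo.rt.com
  have hT : TT M D θ ≤ nz D := fun g hg => hg.1
  set f : Subgroup G → ℤ := fun U => (Nat.card D : ℤ) - 1 + ((cz D).relIndex U : ℤ) ^ 2 with hf
  have htg := hFTG G p D (TT M D θ) hD hL.lo.nb hT f
  rw [FFS_finsum (fun C : Finset (Subgroup G) => PCh p D ⊥ C ∧ C ≠ {⊥})] at htg
  rw [FFS_finsum (fun C : Finset (Subgroup G) => NCh p ⊤ ⊥ C ∧ C ≠ {⊥}), Finset.mul_sum]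
  -- one chain
  have h1 : ∀ C : Finset (Subgroup G), (Nat.card (TT M D θ) : ℤ) * (if NCh p ⊤ ⊥ C ∧ C ≠ {⊥} then
      (-1) ^ (C.card + 1) * ((Nat.card (nrm C) : ℤ) * (Blk M χ (nrm C)).ncard) else 0) =
      ∑ g : G, (Nat.card (cz D) : ℤ) * (if (NCh p ⊤ ⊥ C ∧ C ≠ {⊥}) ∧ ∀ Q ∈ C, cjS g Q ≤ D then
        (-1) ^ (C.card + 1) * f (TT M D θ ⊓ cjS g (nrm C)) else 0) := by
    intro C
    by_cases hC : NCh p ⊤ ⊥ C ∧ C ≠ {⊥}
    · rw [if_pos hC]
      have h2 := (hFNC p M hS G D x θ χ hL C hC.1 hC.2).1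
      rw [FFS_finsum (fun g : G => ∀ Q ∈ C, cjS g Q ≤ D)] at h2
      have h3 := congrArg (fun n : ℕ => (n : ℤ)) h2
      have hD1 : 1 ≤ Nat.card D := Nat.card_pos
      have h4 : ∀ g : G, (((if ∀ Q ∈ C, cjS g Q ≤ D then
          (Nat.card D - 1 + ((cz D).relIndex (TT M D θ ⊓ cjS g (nrm C))) ^ 2) else 0 : ℕ)) : ℤ) =
          if ∀ Q ∈ C, cjS g Q ≤ D then f (TT M D θ ⊓ cjS g (nrm C)) else 0 := by
        intro g
        split_ifs with h5
        · rw [hf]
          push_cast [Nat.cast_sub hD1]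
          ring
        · rfl
      simp only [Nat.cast_mul, Nat.cast_sum, h4] at h3
      calc (Nat.card (TT M D θ) : ℤ) * ((-1) ^ (C.card + 1) * ((Nat.card (nrm C) : ℤ) * (Blk M χ (nrm C)).ncard))
          = (-1) ^ (C.card + 1) * ((Nat.card (TT M D θ) : ℤ) * ((Nat.card (nrm C) : ℤ) * (Blk M χ (nrm C)).ncard)) := by ring
        _ = (-1) ^ (C.card + 1) * ((Nat.card (cz D) : ℤ) * ∑ g : G, if ∀ Q ∈ C, cjS g Q ≤ D then
              f (TT M D θ ⊓ cjS g (nrm C)) else 0) := by rw [h3]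
        _ = _ := by
          rw [← mul_assoc, Finset.mul_sum]
          refine Finset.sum_congr rfl fun g _ => ?_
          by_cases h6 : ∀ Q ∈ C, cjS g Q ≤ D
          · rw [if_pos h6, if_pos ⟨hC, h6⟩]
            ring
          · rw [if_neg h6, if_neg (fun h7 => h6 h7.2), mul_zero, mul_zero]
    · rw [if_neg hC, mul_zero]
      symm
      refine Finset.sum_eq_zero fun g _ => ?_
      rw [if_neg (fun h7 => hC h7.1), mul_zero]
  rw [Finset.sum_congr rfl fun C _ => h1 C, Finset.sum_comm]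
  -- one group element
  have h8 : ∀ g : G, ∑ C : Finset (Subgroup G), (Nat.card (cz D) : ℤ) *
      (if (NCh p ⊤ ⊥ C ∧ C ≠ {⊥}) ∧ ∀ Q ∈ C, cjS g Q ≤ D then
        (-1) ^ (C.card + 1) * f (TT M D θ ⊓ cjS g (nrm C)) else 0) = (Nat.card (cz D) : ℤ) * (- f (TT M D θ)) := by
    intro g
    rw [← Finset.mul_sum, ← htg]
    congr 1
    refine Finset.sum_nbij' (fun C => chainMap (MulAut.conj g) C) (fun C => chainMap (MulAut.conj g⁻¹) C)
      (fun _ _ => Finset.mem_univ _) (fun _ _ => Finset.mem_univ _) ?_ ?_ ?_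
    · intro C _
      exact FFS_inv hNM g⁻¹ g (inv_mul_cancel g) C
    · intro C _
      exact FFS_inv hNM g g⁻¹ (mul_inv_cancel g) C
    · intro C _
      have hiff : ((NCh p ⊤ ⊥ C ∧ C ≠ {⊥}) ∧ ∀ Q ∈ C, cjS g Q ≤ D) ↔
          (PCh p D ⊥ (chainMap (MulAut.conj g) C) ∧ chainMap (MulAut.conj g) C ≠ {⊥}) := by
        constructor
        · rintro ⟨⟨h9, h10⟩, h11⟩
          exact ⟨FFS_fwd p D g C h9 h11, FFS_ne hNM g C h10⟩
        · rintro ⟨h9, h10⟩
          have h11 := FFS_bwd p D hcom g⁻¹ g (mul_inv_cancel g) _ h9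
          rw [FFS_inv hNM g⁻¹ g (inv_mul_cancel g) C] at h11
          refine ⟨⟨h11.1, ?_⟩, h11.2⟩
          intro h12
          apply h10
          rw [h12]
          exact FFS_map_bot _
      by_cases hc : (NCh p ⊤ ⊥ C ∧ C ≠ {⊥}) ∧ ∀ Q ∈ C, cjS g Q ≤ D
      · rw [if_pos hc, if_pos (hiff.1 hc), (hNM G (MulAut.conj g) C).2.2.1, (hNM G (MulAut.conj g) C).2.2.2.1]
      · rw [if_neg hc, if_neg (fun h9 => hc (hiff.2 h9))]
  rw [Finset.sum_congr rfl fun g _ => h8 g, Finset.sum_const, Finset.card_univ, ← Nat.card_eq_fintype_card, nsmul_eq_mul]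
  ring

end Pool.Agent.FI
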